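import Pool.Agent.Helper77.LH.Stokes

/-!
Averaging differential forms.
-/

open Module Manifold ContDiff MeasureTheory Topology Filter

set_option linter.unusedSectionVars false

namespace Pool.Agent.Helper77.LH

open Pool.Agent.Helper77.LieForms

variable {E : Type*} [NormedAddCommGroup E] [NormedSpace ℝ E] [FiniteDimensional ℝ E]
variable {G : Type*} [TopologicalSpace G] [ChartedSpace E G] [Group G] [LieGroup 𝓘(ℝ, E) ∞ G]
variable {Γ : Subgroup G}

theorem Smooth.const (c : ℝ) : Smooth E (fun _ : G ⧸ Γ => c) := contMDiff_const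

theorem Smooth.add {f h : G ⧸ Γ → ℝ} (hf : Smooth E f) (hh : Smooth E h) :
    Smooth E fun x => f x + h x := ContMDiff.add (f := fun g : G => f g) (g := fun g : G => h g) hf hh

theorem Smooth.mul {f h : G ⧸ Γ → ℝ} (hf : Smooth E f) (hh : Smooth E h) :
    Smooth E fun x => f x * h x := ContMDiff.mul (f := fun g : G => f g) (g := fun g : G => h g) hf hh

theorem Smooth.sum {ι : Type*} (s : Finset ι) {f : ι → G ⧸ Γ → ℝ} (hf : ∀ i ∈ s, Smooth E (f i)) :
    Smooth E fun x => ∑ i ∈ s, f i x := by
  classical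
  induction s using Finset.induction_on with
  | empty => simpa using Smooth.const (E := E) (Γ := Γ) 0
  | insert a s ha ih =>
    simp only [Finset.sum_insert ha]
    exact (hf a (Finset.mem_insert_self _ _)).add
      (ih fun i hi => hf i (Finset.mem_insert_of_mem hi))

/-- smooth families of `k`-forms -/
def SmoothForm {k : ℕ} (W : G ⧸ Γ → (Fin k → LieAlg E G) → ℝ) : Prop :=
  ∀ v, Smooth E fun x => W x v

theorem SmoothForm.ceD {k : ℕ} {W : G ⧸ Γ → (Fin (k + 1) → LieAlg E G) → ℝ}
    (hW : SmoothForm W) : SmoothForm fun x => ceD (W x) := by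
  intro v
  unfold LieForms.ceD
  refine Smooth.sum _ fun i _ => Smooth.sum _ fun j _ => ?_
  split_ifs
  · exact (Smooth.const _).mul (hW _)
  · exact Smooth.const _

theorem SmoothForm.extD {k : ℕ} {W : G ⧸ Γ → (Fin (k + 1) → LieAlg E G) → ℝ}
    (hW : SmoothForm W) : SmoothForm (extD W) := by
  intro v
  unfold LH.extD
  refine Smooth.add (Smooth.sum _ fun i _ => (Smooth.const _).mul ?_) (hW.ceD v)
  exact (hW _).deriv _

theorem SmoothForm.comp {k : ℕ} {W : G ⧸ Γ → (Fin k → LieAlg E G) → ℝ}
    (hW : SmoothForm W) (J : LieAlg E G → LieAlg E G) :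
    SmoothForm fun x (v : Fin k → LieAlg E G) => W x fun i => J (v i) := fun v => hW _

theorem deriv_const (v : LieAlg E G) (c : ℝ) (x : G ⧸ Γ) : deriv v (fun _ => c) x = 0 := by
  unfold deriv
  rw [mfderiv_const]
  rfl

variable [CompactSpace (G ⧸ Γ)] [MeasurableSpace (G ⧸ Γ)] [BorelSpace (G ⧸ Γ)]
variable (μ : Measure (G ⧸ Γ)) [IsProbabilityMeasure μ]

/-- the average of a family of forms -/
noncomputable def av {k : ℕ} (W : G ⧸ Γ → (Fin k → LieAlg E G) → ℝ) (v : Fin k → LieAlg E G) :
    ℝ := ∫ x, W x v ∂μ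

theorem integral_ceD {k : ℕ} {W : G ⧸ Γ → (Fin (k + 1) → LieAlg E G) → ℝ} (hW : SmoothForm W)
    (v : Fin (k + 2) → LieAlg E G) : ∫ x, ceD (W x) v ∂μ = ceD (av μ W) v := by
  unfold LieForms.ceD
  rw [integral_finsetSum]
  · refine Finset.sum_congr rfl fun i _ => ?_
    rw [integral_finsetSum]
    · refine Finset.sum_congr rfl fun j _ => ?_
      split_ifs
      · rw [integral_const_mul]
        rfl
      · simp
    · intro j _
      split_ifs
      · exact ((hW _).integrable μ).const_mul _
      · exact integrable_const _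
  · intro i _
    refine integrable_finsetSum _ fun j _ => ?_
    split_ifs
    · exact ((hW _).integrable μ).const_mul _
    · exact integrable_const _

variable [SMulInvariantMeasure G (G ⧸ Γ) μ]

theorem integral_extD {k : ℕ} {W : G ⧸ Γ → (Fin (k + 1) → LieAlg E G) → ℝ} (hW : SmoothForm W)
    (v : Fin (k + 2) → LieAlg E G) : ∫ x, extD W x v ∂μ = ceD (av μ W) v := by
  unfold extD
  rw [integral_add, integral_ceD μ hW, integral_finsetSum]
  · have h1 : ∀ i : Fin (k + 2), ∫ x, (-1 : ℝ) ^ i.val *
        deriv (v i) (fun y => W y fun l => v (i.succAbove l)) x ∂μ = 0 := by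
      intro i
      rw [integral_const_mul, integral_deriv μ (hW _), mul_zero]
    simp only [h1, Finset.sum_const_zero, zero_add]
  · intro i _
    exact (((hW _).deriv _).integrable μ).const_mul _
  · refine integrable_finsetSum _ fun i _ => ?_
    exact (((hW _).deriv _).integrable μ).const_mul _
  · exact (hW.ceD v).integrable μ

/-- the average of a closed form is closed -/
theorem ceD_av_eq_zero {k : ℕ} {W : G ⧸ Γ → (Fin (k + 1) → LieAlg E G) → ℝ} (hW : SmoothForm W)
    (h0 : ∀ x v, extD W x v = 0) (v : Fin (k + 2) → LieAlg E G) : ceD (av μ W) v = 0 := by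
  rw [← integral_extD μ hW]
  simp [h0]

end Pool.Agent.Helper77.LH
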