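import Mathlib
import Pool.Agent.Helper77.FV.TDefs

/-!
# Hermitian metrics on compact quotients of Lie groups

Let `G` be a Lie group with Lie algebra `𝔤` and `Γ` a discrete subgroup such that `M = G / Γ` is
compact.  The vector fields `ξ_v`, `v ∈ 𝔤`, with `ξ_v (x) = d/dt (exp (-t v) x)` trivialise the
tangent bundle of `M` and `[ξ_v, ξ_w] = ξ_[v, w]`.  Hence a differential `k`-form on `M` is a
function of a point of `M` and of a `k`-tuple of elements of `𝔤`, smooth in the first variable.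
(The diffeomorphism `g Γ ↦ Γ g⁻¹` from `G / Γ` to `Γ \ G` maps `ξ_v` to the left-invariant vector
field `v`.)
-/

open Module Manifold ContDiff MeasureTheory

namespace Pool.Agent.Helper77.LH

open Pool.Agent.Helper77.LieForms

variable {E : Type*} [NormedAddCommGroup E] [NormedSpace ℝ E]
variable {G : Type*} [TopologicalSpace G] [ChartedSpace E G] [Group G] {Γ : Subgroup G}

/-- The Lie algebra of `G` (the tangent space at `1`, with the bracket of left-invariant vector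
fields). -/
abbrev LieAlg (E G : Type*) [NormedAddCommGroup E] [NormedSpace ℝ E] [TopologicalSpace G]
    [ChartedSpace E G] [Group G] : Type _ := GroupLieAlgebra 𝓘(ℝ, E) G

instance : ENat.LEInfty (minSmoothness ℝ 3) :=
  ⟨by rw [minSmoothness_of_isRCLikeNormedField]; exact ENat.LEInfty.out⟩

instance [FiniteDimensional ℝ E] : FiniteDimensional ℝ (LieAlg E G) :=
  inferInstanceAs (FiniteDimensional ℝ E)

variable (E) in
/-- A real function on `M = G / Γ` is smooth (that is, its pullback to `G` is smooth). -/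
def Smooth (f : G ⧸ Γ → ℝ) : Prop := ContMDiff 𝓘(ℝ, E) 𝓘(ℝ, ℝ) ∞ fun g : G => f g

/-- The derivative `ξ_v f` of a function on `M`: the derivative at `g = 1` in the direction `v` of
`g ↦ f (g⁻¹ x)`. -/
noncomputable def deriv (v : LieAlg E G) (f : G ⧸ Γ → ℝ) (x : G ⧸ Γ) : ℝ :=
  mfderiv 𝓘(ℝ, E) 𝓘(ℝ, ℝ) (fun g : G => f (g⁻¹ • x)) 1 v

section

variable [FiniteDimensional ℝ E] [LieGroup 𝓘(ℝ, E) ∞ G]

/-- The exterior derivative of a `k`-form `W` on `M`, `k ≥ 1`:
`dW (v_0, …, v_k) = ∑ i, (-1)^i ξ_{v_i} (W (v_0, …, v̂_i, …, v_k)) +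
∑_{i < j} (-1)^(i+j) W ([v_i, v_j], v_0, …, v̂_i, …, v̂_j, …, v_k)`. -/
noncomputable def extD {k : ℕ} (W : G ⧸ Γ → (Fin (k + 1) → LieAlg E G) → ℝ) (x : G ⧸ Γ)
    (v : Fin (k + 2) → LieAlg E G) : ℝ :=
  ∑ i : Fin (k + 2), (-1) ^ i.val * deriv (v i) (fun y => W y fun l => v (i.succAbove l)) x +
    ceD (W x) v

/-- A smooth Hermitian metric on `M`, for the (left-invariant) complex structure `J`. -/
def IsSmoothMetric (J : LieAlg E G →ₗ[ℝ] LieAlg E G)
    (g : G ⧸ Γ → LinearMap.BilinForm ℝ (LieAlg E G)) : Prop :=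
  (∀ v w, Smooth E fun x => g x v w) ∧ ∀ x, IsHermitianMetric J (g x)

/-- The fundamental form of a metric on `M`. -/
noncomputable def fund (J : LieAlg E G →ₗ[ℝ] LieAlg E G)
    (g : G ⧸ Γ → LinearMap.BilinForm ℝ (LieAlg E G)) (x : G ⧸ Γ) (v : Fin 2 → LieAlg E G) : ℝ :=
  omega J (g x) (v 0) (v 1)

/-- `dω = 0`. -/
def Kahler (J : LieAlg E G →ₗ[ℝ] LieAlg E G)
    (g : G ⧸ Γ → LinearMap.BilinForm ℝ (LieAlg E G)) : Prop :=
  ∀ x v, extD (k := 1) (fund J g) x v = 0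

/-- `d dᶜ ω = 0`, where `dᶜ ω = ± dω(J ·, J ·, J ·)`. -/
def Pluriclosed (J : LieAlg E G →ₗ[ℝ] LieAlg E G)
    (g : G ⧸ Γ → LinearMap.BilinForm ℝ (LieAlg E G)) : Prop :=
  ∀ x v, extD (k := 2) (fun y w => extD (k := 1) (fund J g) y fun i => J (w i)) x v = 0

/-- `d (ω ^ (n - 1)) = 0`, where `2 n` is the dimension of `M` (an empty condition if
`n ≤ 1`). -/
def Balanced (J : LieAlg E G →ₗ[ℝ] LieAlg E G)
    (g : G ⧸ Γ → LinearMap.BilinForm ℝ (LieAlg E G)) : Prop :=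
  ∀ m : ℕ, finrank ℝ (LieAlg E G) = 2 * (m + 2) →
    ∀ x v, extD (k := 2 * m + 1) (fun y => wedgePow (omega J (g y)) (m + 1)) x v = 0

end

end Pool.Agent.Helper77.LH
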