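import Pool.Agent.Helper77.LH.Weak

/-!
The sign of the volume form.
-/

open Module Matrix

set_option linter.unusedSectionVars false

namespace Pool.Agent.Helper77.LH

open Pool.Agent.Helper77.FV Pool.Agent.Helper77

variable {L : Type*} [LieRing L] [LieAlgebra ℝ L] [FiniteDimensional ℝ L]
variable {J : L →ₗ[ℝ] L} {g : LinearMap.BilinForm ℝ L}

theorem continuous_wedgePow {T : Type*} [TopologicalSpace T] {β : T → L → L → ℝ}
    (hβ : ∀ a b, Continuous fun t => β t a b) (m : ℕ) (y : Fin (2 * m) → L) :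
    Continuous fun t => LieForms.wedgePow (β t) m y := by
  induction m with
  | zero => exact continuous_const
  | succ m ih =>
    change Continuous fun t => LieForms.wedge (β t) (LieForms.wedgePow (β t) m) y
    unfold LieForms.wedge
    refine continuous_finsetSum _ fun i _ => continuous_finsetSum _ fun j _ => ?_
    split_ifs
    · exact continuous_const.mul ((hβ _ _).mul (ih _))
    · exact continuous_const

theorem wedgePow_ne_zero {g₀ g : LinearMap.BilinForm ℝ L} (hJ : ∀ x, J (J x) = -x)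
    (h₀ : LieForms.IsHermitianMetric J g₀) (h : LieForms.IsHermitianMetric J g) {n : ℕ}
    (hn : finrank ℝ L = 2 * (n + 1)) {y : Fin (2 * (n + 1)) → L}
    (hy : LieForms.wedgePow (LieForms.omega J g₀) (n + 1) y ≠ 0) :
    LieForms.wedgePow (LieForms.omega J g) (n + 1) y ≠ 0 := by
  have k₀ : FV.IsHermitianMetric J g₀ := h₀
  have k : FV.IsHermitianMetric J g := h
  obtain ⟨u, hu⟩ := exists_isON h.1 h.2.1
  obtain ⟨u₀, hu₀⟩ := exists_isON h₀.1 h₀.2.1
  have hne : fundForm J g ^ (n + 1) ≠ 0 :=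
    fundForm_pow_ne_zero k.symInv hJ hu (n + 1) (by rw [Fintype.card_fin]; omega)
  have hne₀ : fundForm J g₀ ^ (n + 1) ≠ 0 :=
    fundForm_pow_ne_zero k₀.symInv hJ hu₀ (n + 1) (by rw [Fintype.card_fin]; omega)
  obtain ⟨c, hc⟩ := exists_smul_top (g := g₀) (g' := g) hn hne₀
  have hc0 : c ≠ 0 := by
    rintro rfl
    rw [zero_smul] at hc
    exact hne hc
  rw [← ev_pow k.symInv hJ, hc, ev_smul, ev_pow k₀.symInv hJ]
  exact mul_ne_zero hc0 hy

theorem wedgePow_mul_pos {g₀ g : LinearMap.BilinForm ℝ L} (hJ : ∀ x, J (J x) = -x)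
    (h₀ : LieForms.IsHermitianMetric J g₀) (h : LieForms.IsHermitianMetric J g) {n : ℕ}
    (hn : finrank ℝ L = 2 * (n + 1)) {y : Fin (2 * (n + 1)) → L}
    (hy : LieForms.wedgePow (LieForms.omega J g₀) (n + 1) y ≠ 0) :
    0 < LieForms.wedgePow (LieForms.omega J g₀) (n + 1) y *
      LieForms.wedgePow (LieForms.omega J g) (n + 1) y := by
  set gt : ℝ → LinearMap.BilinForm ℝ L := fun t => (1 - t) • g₀ + t • g with hgt
  have happ : ∀ t a b, gt t a b = (1 - t) * g₀ a b + t * g a b := fun t a b => rfl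
  have hH : ∀ t ∈ Set.Icc (0 : ℝ) 1, LieForms.IsHermitianMetric J (gt t) := by
    rintro t ⟨ht0, ht1⟩
    refine ⟨fun a b => ?_, fun a ha => ?_, fun a b => ?_⟩
    · rw [happ, happ, h₀.1 a b, h.1 a b]
    · rw [happ]
      have p1 := h₀.2.1 a ha
      have p2 := h.2.1 a ha
      rcases eq_or_lt_of_le ht0 with h1 | h1
      · rw [← h1]; simpa using p1
      · have := mul_pos h1 p2
        have := mul_nonneg (sub_nonneg.mpr ht1) p1.le
        linarith
    · rw [happ, happ, h₀.2.2, h.2.2]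
  set f : ℝ → ℝ := fun t => LieForms.wedgePow (LieForms.omega J (gt t)) (n + 1) y with hf
  have hcont : Continuous f := by
    refine continuous_wedgePow (fun a b => ?_) (n + 1) y
    unfold LieForms.omega
    simp only [happ]
    fun_prop
  have hne : ∀ t ∈ Set.Icc (0 : ℝ) 1, f t ≠ 0 := fun t ht =>
    wedgePow_ne_zero hJ h₀ (hH t ht) hn hy
  have h0 : f 0 = LieForms.wedgePow (LieForms.omega J g₀) (n + 1) y := by
    simp [hf, hgt]
  have h1 : f 1 = LieForms.wedgePow (LieForms.omega J g) (n + 1) y := by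
    simp [hf, hgt]
  rw [← h1, ← h0]
  by_contra hcon
  have hle : f 0 * f 1 ≤ 0 := not_lt.mp hcon
  have h2 := intermediate_value_uIcc (a := (0 : ℝ)) (b := 1) hcont.continuousOn
  have h3 : (0 : ℝ) ∈ Set.uIcc (f 0) (f 1) := by
    rw [Set.mem_uIcc]
    rcases mul_nonpos_iff.mp hle with h | h
    · exact Or.inr ⟨h.2, h.1⟩
    · exact Or.inl h
  obtain ⟨t, ht, hft⟩ := h2 h3
  rw [Set.uIcc_of_le zero_le_one] at ht
  exact hne t ht hft

end Pool.Agent.Helper77.LH
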