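import Pool.Agent.Helper77.LH.Defs

/-!
Smooth functions on `G / Γ` and their derivatives.
-/

open Module Manifold ContDiff MeasureTheory Topology Filter

set_option linter.unusedSectionVars false

namespace Pool.Agent.Helper77.LH

open Pool.Agent.Helper77.LieForms

variable {E : Type*} [NormedAddCommGroup E] [NormedSpace ℝ E] [FiniteDimensional ℝ E]
variable {G : Type*} [TopologicalSpace G] [ChartedSpace E G] [Group G] [LieGroup 𝓘(ℝ, E) ∞ G]
variable {Γ : Subgroup G}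

/-- the chart at the identity -/
noncomputable abbrev ch (E G : Type*) [NormedAddCommGroup E] [TopologicalSpace G]
    [ChartedSpace E G] [Group G] : OpenPartialHomeomorph G E := chartAt E (1 : G)

variable (E) in
theorem topGroup (G : Type*) [TopologicalSpace G] [ChartedSpace E G] [Group G]
    [LieGroup 𝓘(ℝ, E) ∞ G] : IsTopologicalGroup G := topologicalGroup_of_lieGroup 𝓘(ℝ, E) ∞

theorem Smooth.continuous {f : G ⧸ Γ → ℝ} (hf : Smooth E f) : Continuous f := by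
  have h1 : Continuous fun g : G => f g := ContMDiff.continuous hf
  exact (QuotientGroup.isQuotientMap_mk (N := Γ)).continuous_iff.mpr h1

theorem mk_inv_smul (g h : G) : g⁻¹ • (h : G ⧸ Γ) = ((g⁻¹ * h : G) : G ⧸ Γ) := rfl

/-- the local expression is smooth -/
theorem Smooth.contDiffAt {f : G ⧸ Γ → ℝ} (hf : Smooth E f) (h₀ : G) :
    ContDiffAt ℝ ∞ (fun p : E × E => f (((ch E G).symm p.1)⁻¹ •
      (((chartAt E h₀).symm p.2 : G) : G ⧸ Γ))) (ch E G 1, chartAt E h₀ h₀) := by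
  rw [← contMDiffAt_iff_contDiffAt]
  have h1 : ContMDiffAt 𝓘(ℝ, E × E) 𝓘(ℝ, E) ∞ (fun p : E × E => (ch E G).symm p.1)
      (ch E G 1, chartAt E h₀ h₀) := by
    have a1 : ContMDiffAt 𝓘(ℝ, E) 𝓘(ℝ, E) ∞ ((ch E G).symm) (ch E G 1) :=
      (contMDiffOn_chart_symm (x := (1 : G))).contMDiffAt
        ((ch E G).open_target.mem_nhds ((ch E G).map_source (mem_chart_source E 1)))
    exact ContMDiffAt.comp (ch E G 1, chartAt E h₀ h₀) a1 contDiff_fst.contMDiff.contMDiffAt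
  have h2 : ContMDiffAt 𝓘(ℝ, E × E) 𝓘(ℝ, E) ∞ (fun p : E × E => (chartAt E h₀).symm p.2)
      (ch E G 1, chartAt E h₀ h₀) := by
    have a1 : ContMDiffAt 𝓘(ℝ, E) 𝓘(ℝ, E) ∞ ((chartAt E h₀).symm) (chartAt E h₀ h₀) :=
      (contMDiffOn_chart_symm (x := h₀)).contMDiffAt
        ((chartAt E h₀).open_target.mem_nhds ((chartAt E h₀).map_source (mem_chart_source E h₀)))
    exact ContMDiffAt.comp (ch E G 1, chartAt E h₀ h₀) a1 contDiff_snd.contMDiff.contMDiffAt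
  have hf' : ContMDiff 𝓘(ℝ, E) 𝓘(ℝ, ℝ) ∞ fun g : G => f g := hf
  exact ContMDiffAt.comp (g := fun g : G => f g) (ch E G 1, chartAt E h₀ h₀) hf'.contMDiffAt
    (h1.inv.mul h2)

theorem Smooth.contDiffAt_left {f : G ⧸ Γ → ℝ} (hf : Smooth E f) (x : G ⧸ Γ) :
    ContDiffAt ℝ ∞ (fun e : E => f (((ch E G).symm e)⁻¹ • x)) (ch E G 1) := by
  obtain ⟨h₀, rfl⟩ := QuotientGroup.mk_surjective x
  have h1 := hf.contDiffAt h₀
  have h2 : ContDiffAt ℝ ∞ (fun e : E => (e, chartAt E h₀ h₀)) (ch E G 1) :=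
    contDiffAt_id.prodMk contDiffAt_const
  have h3 := ContDiffAt.comp (ch E G 1) h1 h2
  refine h3.congr_of_eventuallyEq (Eventually.of_forall fun e => ?_)
  simp only [Function.comp_apply]
  rw [(chartAt E h₀).left_inv (mem_chart_source E h₀)]

theorem deriv_eq {f : G ⧸ Γ → ℝ} (hf : Smooth E f) (v : LieAlg E G) (x : G ⧸ Γ) :
    deriv v f x = fderiv ℝ (fun e : E => f (((ch E G).symm e)⁻¹ • x)) (ch E G 1) v := by
  have hd : MDifferentiableAt 𝓘(ℝ, E) 𝓘(ℝ, ℝ) (fun g : G => f (g⁻¹ • x)) 1 := by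
    obtain ⟨h₀, rfl⟩ := QuotientGroup.mk_surjective x
    have h1 : ContMDiffAt 𝓘(ℝ, E) 𝓘(ℝ, ℝ) ∞ (fun g : G => f (g⁻¹ • (h₀ : G ⧸ Γ))) 1 := by
      have h2 : ContMDiffAt 𝓘(ℝ, E) 𝓘(ℝ, E) ∞ (fun g : G => g⁻¹ * h₀) 1 :=
        (contMDiffAt_id.inv).mul contMDiffAt_const
      have hf' : ContMDiff 𝓘(ℝ, E) 𝓘(ℝ, ℝ) ∞ fun g : G => f g := hf
      exact ContMDiffAt.comp (g := fun g : G => f g) 1 hf'.contMDiffAt h2
    exact h1.mdifferentiableAt (by simp)
  unfold deriv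
  rw [hd.mfderiv]
  simp only [writtenInExtChartAt, extChartAt, mfld_simps, fderivWithin_univ]
  rfl

theorem Smooth.deriv {f : G ⧸ Γ → ℝ} (hf : Smooth E f) (v : LieAlg E G) :
    Smooth E (deriv v f) := by
  intro h₀
  set ψ := chartAt E h₀ with hψ
  have h1 : ContDiffAt ℝ ∞ (fun e' : E => fderiv ℝ (fun e : E => f (((ch E G).symm e)⁻¹ •
      ((ψ.symm e' : G) : G ⧸ Γ))) (ch E G 1) v) (ψ h₀) := by
    have h2 : ContDiffAt ℝ ∞ (fun e' : E => fderiv ℝ (fun e : E => f (((ch E G).symm e)⁻¹ •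
        ((ψ.symm e' : G) : G ⧸ Γ))) (ch E G 1)) (ψ h₀) := by
      refine ContDiffAt.fderiv (f := fun (e' e : E) => f (((ch E G).symm e)⁻¹ •
        ((ψ.symm e' : G) : G ⧸ Γ))) (n := ∞) ?_ contDiffAt_const (by simp)
      have h3 := hf.contDiffAt h₀
      have h4 : ContDiffAt ℝ ∞ (fun p : E × E => (p.2, p.1)) (ψ h₀, ch E G 1) :=
        contDiffAt_snd.prodMk contDiffAt_fst
      exact ContDiffAt.comp (g := fun p : E × E => f (((ch E G).symm p.1)⁻¹ •
        ((ψ.symm p.2 : G) : G ⧸ Γ))) (ψ h₀, ch E G 1) h3 h4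
    exact h2.clm_apply contDiffAt_const
  have h2 : ContMDiffAt 𝓘(ℝ, E) 𝓘(ℝ, E) ∞ ψ h₀ :=
    (contMDiffOn_chart (x := h₀)).contMDiffAt (ψ.open_source.mem_nhds (mem_chart_source E h₀))
  have h3 := ContMDiffAt.comp h₀ h1.contMDiffAt h2
  refine h3.congr_of_eventuallyEq ?_
  filter_upwards [ψ.open_source.mem_nhds (mem_chart_source E h₀)] with g hg
  rw [deriv_eq hf]
  simp only [Function.comp_apply]
  rw [ψ.left_inv hg]

end Pool.Agent.Helper77.LH
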