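import Pool.Agent.Helper77.LH.Smooth

/-!
The integral of a derivative vanishes.
-/

open Module Manifold ContDiff MeasureTheory Topology Filter

set_option linter.unusedSectionVars false

namespace Pool.Agent.Helper77.LH

open Pool.Agent.Helper77.LieForms

variable {E : Type*} [NormedAddCommGroup E] [NormedSpace ℝ E] [FiniteDimensional ℝ E]
variable {G : Type*} [TopologicalSpace G] [ChartedSpace E G] [Group G] [LieGroup 𝓘(ℝ, E) ∞ G]
variable {Γ : Subgroup G}

theorem exists_lip_local {f : G ⧸ Γ → ℝ} (hf : Smooth E f) (x₀ : G ⧸ Γ) :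
    ∃ U ∈ 𝓝 x₀, ∃ s ∈ 𝓝 (ch E G 1), ∃ K : NNReal, ∀ x ∈ U,
      LipschitzOnWith K (fun e : E => f (((ch E G).symm e)⁻¹ • x)) s := by
  have := topGroup E G
  obtain ⟨h₀, rfl⟩ := QuotientGroup.mk_surjective x₀
  set ψ := chartAt E h₀ with hψ
  obtain ⟨K, t, ht, hK⟩ := ((hf.contDiffAt h₀).of_le (by simp) : ContDiffAt ℝ 1 _ _).exists_lipschitzOnWith
  obtain ⟨s, hs, u, hu, hsu⟩ := mem_nhds_prod_iff.mp ht
  set V : Set G := ψ.source ∩ ψ ⁻¹' u with hV
  have hV' : V ∈ 𝓝 h₀ := by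
    refine inter_mem (ψ.open_source.mem_nhds (mem_chart_source E h₀)) ?_
    exact (ψ.continuousAt (mem_chart_source E h₀)).preimage_mem_nhds hu
  refine ⟨(fun g : G => (g : G ⧸ Γ)) '' V, (QuotientGroup.isOpenMap_coe).image_mem_nhds hV', s,
    hs, K, ?_⟩
  rintro _ ⟨g, hg, rfl⟩
  intro a ha b hb
  have h1 := hK (x := (a, ψ g)) (hsu ⟨ha, hg.2⟩) (y := (b, ψ g)) (hsu ⟨hb, hg.2⟩)
  have e1 : ψ.symm (ψ g) = g := ψ.left_inv hg.1
  simp only at h1
  rw [← hψ, e1, Prod.edist_eq, edist_self, max_eq_left zero_le] at h1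
  exact h1

theorem exists_lip [CompactSpace (G ⧸ Γ)] {f : G ⧸ Γ → ℝ} (hf : Smooth E f) :
    ∃ s ∈ 𝓝 (ch E G 1), ∃ K : NNReal, ∀ x,
      LipschitzOnWith K (fun e : E => f (((ch E G).symm e)⁻¹ • x)) s := by
  choose U hU s hs K hK using fun x₀ : G ⧸ Γ => exists_lip_local hf x₀
  obtain ⟨t, ht⟩ := CompactSpace.elim_nhds_subcover U hU
  refine ⟨⋂ x ∈ t, s x, (biInter_finset_mem t).mpr fun x _ => hs x, t.sup K, fun x => ?_⟩
  have hx : x ∈ ⋃ y ∈ t, U y := by rw [ht]; trivial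
  simp only [Set.mem_iUnion] at hx
  obtain ⟨y, hy, hxy⟩ := hx
  exact ((hK y x hxy).mono (Set.biInter_subset_of_mem hy)).weaken (Finset.le_sup hy)

variable [CompactSpace (G ⧸ Γ)] [MeasurableSpace (G ⧸ Γ)] [BorelSpace (G ⧸ Γ)]
variable (μ : Measure (G ⧸ Γ)) [IsProbabilityMeasure μ]

theorem Smooth.integrable {f : G ⧸ Γ → ℝ} (hf : Smooth E f) : Integrable f μ :=
  hf.continuous.integrable_of_hasCompactSupport (HasCompactSupport.of_compactSpace _)

/-- the integral of a derivative vanishes -/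
theorem integral_deriv [SMulInvariantMeasure G (G ⧸ Γ) μ] {f : G ⧸ Γ → ℝ} (hf : Smooth E f)
    (v : LieAlg E G) : ∫ x, deriv v f x ∂μ = 0 := by
  have := topGroup E G
  obtain ⟨s, hs, K, hK⟩ := exists_lip hf
  set F : E → G ⧸ Γ → ℝ := fun e x => f (((ch E G).symm e)⁻¹ • x) with hF
  have hcont : ∀ e, Continuous (F e) := fun e => hf.continuous.comp (continuous_const_smul _)
  have hd : ∀ x, HasFDerivAt (F · x) (fderiv ℝ (F · x) (ch E G 1)) (ch E G 1) := fun x =>
    ((hf.contDiffAt_left x).differentiableAt (by simp)).hasFDerivAt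
  have hF' : Continuous fun x => fderiv ℝ (F · x) (ch E G 1) := by
    rw [continuous_clm_apply]
    intro w
    have h1 := (hf.deriv w).continuous
    exact h1.congr fun x => deriv_eq hf w x
  have h1 := hasFDerivAt_integral_of_dominated_loc_of_lip (μ := μ) (𝕜 := ℝ) (F := F)
    (x₀ := ch E G 1) (bound := fun _ => (K : ℝ)) hs
    (Eventually.of_forall fun e => (hcont e).aestronglyMeasurable)
    ((hcont _).integrable_of_hasCompactSupport (HasCompactSupport.of_compactSpace _))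
    hF'.aestronglyMeasurable
    (Eventually.of_forall fun x => by simpa using hK x) (integrable_const _)
    (Eventually.of_forall hd)
  obtain ⟨hint, h2⟩ := h1
  have h3 : (fun e => ∫ x, F e x ∂μ) = fun _ => ∫ x, f x ∂μ := by
    funext e
    exact integral_smul_eq_self (μ := μ) f
  rw [h3] at h2
  have h4 := h2.unique (hasFDerivAt_const _ _)
  have h5 : ∀ w : E, ∫ x, (fderiv ℝ (F · x) (ch E G 1)) w ∂μ = 0 := by
    intro w
    rw [← ContinuousLinearMap.integral_apply hint, h4]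
    rfl
  refine Eq.trans ?_ (h5 v)
  exact integral_congr_ae (Eventually.of_forall fun x => deriv_eq hf v x)

end Pool.Agent.Helper77.LH
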